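import Mathlib
import Pool.Agent.H55.Tpc4

/-! Under CH: a Lindelöf totally paracompact Tychonoff space without the Menger property. -/

namespace Pool.Agent.Results.MP_a4b8ee_gt.CHCounter

open Pool.Agent.H55.Tpc

theorem result (CH : (2 : Cardinal.{0}) ^ Cardinal.aleph0 = Cardinal.aleph 1) :
    ∃ (X : Type) (_ : TopologicalSpace X), T35Space X ∧ LindelofSpace X ∧
      (∀ B : Set (Set X), TopologicalSpace.IsTopologicalBasis B →
        ∃ C : Set (Set X), C ⊆ B ∧ LocallyFinite (fun s : C => (s : Set X)) ∧ ⋃₀ C = Set.univ) ∧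
      ∃ U : ℕ → Set (Set X), (∀ n, ∀ s ∈ U n, IsOpen s) ∧ (∀ n, ⋃₀ U n = Set.univ) ∧
        ∀ A : ℕ → Set (Set X), (∀ n, A n ⊆ U n ∧ (A n).Finite) → (⋃ n, ⋃₀ A n) ≠ Set.univ := by
  obtain ⟨X, h1, h2⟩ := exX CH
  exact ⟨Z X, inferInstance, t35, lindZ h1 h2, fun B hB => tp h1 h2 hB, notM h1⟩

end Pool.Agent.Results.MP_a4b8ee_gt.CHCounter
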